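import Pool.Agent.H423R3.St.Fill9

/-!
Steiner systems with blocks of size `9` from difference families over `ℤ_72 × 𝔽_q` relative to
`ℤ_72 × {0}`, with the multiplier `(49, ζ)`, `ζ` a generator of the squares of `𝔽_q`.
-/

namespace Pool.Agent.H423R3.St

open Pool.Agent.H816R2.KM2 Pool.Agent.H216R3.StGrp

/-- `ℤ_72` -/
def Z72 : CGrp := ofCoded (codedZ 72)

def c1 : List ℕ := [67, 23, 14, 7, 18, 1, 4, 49, 63]

def c2 : List ℕ := [50, 12, 52, 34, 35, 54, 50, 71, 11]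

/-- base blocks over `ℤ_72 × 𝔽_31` -/
def d31 : List (List ℕ) :=
  scaled2 72 31 (pows2 72 31 49 9 15) c1 [6, 9, 0, 8, 7, 23, 4, 28, 11] ++
  scaled2 72 31 (pows2 72 31 49 9 15) c2 [27, 10, 9, 28, 23, 8, 21, 30, 5]

theorem ok31 : d31.all (okB 9 (Z72.nn * (codedZ 31).nn)) = true := by decide +kernel

theorem df31 : addBits (diffs (cprod Z72 (codedZ 31)) d31)
    (addBits ((List.range Z72.nn).map fun i => i * (codedZ 31).nn) 0) =
      2 ^ (Z72.nn * (codedZ 31).nn) - 1 := by decide +kernel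

theorem s2233 : ∃ 𝓑 : Set (Finset (Fin 2233)), IsS2 (Fin 2233) 9 𝓑 :=
  main Z72 (codedZ 31) 9 1 2233 (by decide) d31 pg8 [] ok31 pg8_ok (by decide +kernel)
    df31 (coverB_spec pg8_cover) (by decide +kernel)

theorem s2241 : ∃ 𝓑 : Set (Finset (Fin 2241)), IsS2 (Fin 2241) 9 𝓑 :=
  main Z72 (codedZ 31) 9 9 2241 (by decide) d31 ag9 ag9f ok31 ag9_ok ag9f_ok
    df31 (coverB_spec ag9_cover) (by decide +kernel)

/-- base blocks over `ℤ_72 × 𝔽_43` -/
def d43 : List (List ℕ) :=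
  scaled2 72 43 (pows2 72 43 49 9 21) c1 [5, 18, 26, 42, 29, 7, 1, 24, 12] ++
  scaled2 72 43 (pows2 72 43 49 9 21) c2 [39, 1, 41, 14, 8, 38, 37, 6, 20]

theorem ok43 : d43.all (okB 9 (Z72.nn * (codedZ 43).nn)) = true := by decide +kernel

theorem df43 : addBits (diffs (cprod Z72 (codedZ 43)) d43)
    (addBits ((List.range Z72.nn).map fun i => i * (codedZ 43).nn) 0) =
      2 ^ (Z72.nn * (codedZ 43).nn) - 1 := by decide +kernel

theorem s3097 : ∃ 𝓑 : Set (Finset (Fin 3097)), IsS2 (Fin 3097) 9 𝓑 :=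
  main Z72 (codedZ 43) 9 1 3097 (by decide) d43 pg8 [] ok43 pg8_ok (by decide +kernel)
    df43 (coverB_spec pg8_cover) (by decide +kernel)

theorem s3105 : ∃ 𝓑 : Set (Finset (Fin 3105)), IsS2 (Fin 3105) 9 𝓑 :=
  main Z72 (codedZ 43) 9 9 3105 (by decide) d43 ag9 ag9f ok43 ag9_ok ag9f_ok
    df43 (coverB_spec ag9_cover) (by decide +kernel)

/-- base blocks over `ℤ_72 × 𝔽_67` -/
def d67 : List (List ℕ) :=
  scaled2 72 67 (pows2 72 67 49 4 33) c1 [26, 2, 51, 21, 50, 34, 43, 19, 5] ++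
  scaled2 72 67 (pows2 72 67 49 4 33) c2 [31, 38, 1, 39, 13, 15, 60, 9, 11]

theorem ok67 : d67.all (okB 9 (Z72.nn * (codedZ 67).nn)) = true := by decide +kernel

theorem df67 : addBits (diffs (cprod Z72 (codedZ 67)) d67)
    (addBits ((List.range Z72.nn).map fun i => i * (codedZ 67).nn) 0) =
      2 ^ (Z72.nn * (codedZ 67).nn) - 1 := by decide +kernel

theorem s4825 : ∃ 𝓑 : Set (Finset (Fin 4825)), IsS2 (Fin 4825) 9 𝓑 :=
  main Z72 (codedZ 67) 9 1 4825 (by decide) d67 pg8 [] ok67 pg8_ok (by decide +kernel)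
    df67 (coverB_spec pg8_cover) (by decide +kernel)

theorem s4833 : ∃ 𝓑 : Set (Finset (Fin 4833)), IsS2 (Fin 4833) 9 𝓑 :=
  main Z72 (codedZ 67) 9 9 4833 (by decide) d67 ag9 ag9f ok67 ag9_ok ag9f_ok
    df67 (coverB_spec ag9_cover) (by decide +kernel)

/-- base blocks over `ℤ_72 × 𝔽_103` -/
def d103 : List (List ℕ) :=
  scaled2 72 103 (pows2 72 103 49 25 51) c1 [46, 41, 57, 73, 50, 6, 22, 7, 100] ++
  scaled2 72 103 (pows2 72 103 49 25 51) c2 [14, 69, 13, 55, 70, 94, 96, 77, 91]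

theorem ok103 : d103.all (okB 9 (Z72.nn * (codedZ 103).nn)) = true := by decide +kernel

theorem df103 : addBits (diffs (cprod Z72 (codedZ 103)) d103)
    (addBits ((List.range Z72.nn).map fun i => i * (codedZ 103).nn) 0) =
      2 ^ (Z72.nn * (codedZ 103).nn) - 1 := by decide +kernel

theorem s7425 : ∃ 𝓑 : Set (Finset (Fin 7425)), IsS2 (Fin 7425) 9 𝓑 :=
  main Z72 (codedZ 103) 9 9 7425 (by decide) d103 ag9 ag9f ok103 ag9_ok ag9f_ok
    df103 (coverB_spec ag9_cover) (by decide +kernel)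

/-- base blocks over `ℤ_72 × 𝔽_139` -/
def d139 : List (List ℕ) :=
  scaled2 72 139 (pows2 72 139 49 4 69) c1 [50, 65, 29, 26, 102, 108, 90, 63, 98] ++
  scaled2 72 139 (pows2 72 139 49 4 69) c2 [3, 54, 107, 106, 85, 45, 36, 124, 91]

theorem ok139 : d139.all (okB 9 (Z72.nn * (codedZ 139).nn)) = true := by decide +kernel

theorem df139 : addBits (diffs (cprod Z72 (codedZ 139)) d139)
    (addBits ((List.range Z72.nn).map fun i => i * (codedZ 139).nn) 0) =
      2 ^ (Z72.nn * (codedZ 139).nn) - 1 := by decide +kernel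

theorem s10017 : ∃ 𝓑 : Set (Finset (Fin 10017)), IsS2 (Fin 10017) 9 𝓑 :=
  main Z72 (codedZ 139) 9 9 10017 (by decide) d139 ag9 ag9f ok139 ag9_ok ag9f_ok
    df139 (coverB_spec ag9_cover) (by decide +kernel)

end Pool.Agent.H423R3.St
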