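import Pool.Agent.H216R3.StGrp

/-!
Steiner systems with blocks of size `9` from difference families over `ℤ_8 × 𝔽_q` with one fixed
point.
-/

namespace Pool.Agent.H423R3.St

open Pool.Agent.H816R2.KM2 Pool.Agent.H216R3.StGrp

/-- base blocks over `ℤ_8 × 𝔽_613`; the second block is fixed by the multiplier `65` of order
three -/
def g613 : List (List ℕ) :=
  scaled 613 (pows 613 418 51) [7, 3, 1, 4, 5, 1, 4, 0, 3]
    [0, 256, 1, 31, 298, 285, 518, 99, 137] ++
  scaled 613 (pows 613 418 17) [6, 6, 6, 5, 5, 5, 0, 0, 0]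
    [142, 35, 436, 412, 421, 393, 132, 611, 483]

theorem s4905 : ∃ 𝓑 : Set (Finset (Fin 4905)), IsS2 (Fin 4905) 9 𝓑 :=
  main (ofCoded (codedZ 8)) (codedZ 613) 9 1 4905 (by decide) g613
    [[0, 1, 2, 3, 4, 5, 6, 7, 8]] [] (by decide +kernel) (by decide +kernel)
    (by decide +kernel) (by decide +kernel) (coverB_spec (by decide +kernel))
    (by decide +kernel)

/-- base blocks over `ℤ_8 × 𝔽_1567` -/
def g1567 : List (List ℕ) :=
  scaled 1567 (pows 1567 110 87) [6, 6, 4, 1, 1, 0, 0, 0, 5]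
    [0, 64, 833, 192, 448, 65, 643, 9, 383] ++
  scaled 1567 (pows 1567 110 87) [5, 3, 5, 2, 4, 7, 0, 3, 3]
    [0, 1280, 720, 289, 986, 1098, 1461, 105, 228]

theorem s12537 : ∃ 𝓑 : Set (Finset (Fin 12537)), IsS2 (Fin 12537) 9 𝓑 :=
  main (ofCoded (codedZ 8)) (codedZ 1567) 9 1 12537 (by decide) g1567
    [[0, 1, 2, 3, 4, 5, 6, 7, 8]] [] (by decide +kernel) (by decide +kernel)
    (by decide +kernel) (by decide +kernel) (coverB_spec (by decide +kernel))
    (by decide +kernel)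

end Pool.Agent.H423R3.St
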