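import Pool.Agent.H423R3.St.Fill9

/-!
Steiner systems with blocks of size `9` from difference families over `SL(2,3) × ℤ_3 × 𝔽_q`
relative to `SL(2,3) × ℤ_3 × {0}`, for `q = 37, 53, 61`.
-/

namespace Pool.Agent.H423R3.St

open Pool.Agent.H816R2.KM2 Pool.Agent.H216R3.StGrp

/-- multiplication table of `SL(2,3)`, five bits for each entry -/
def TS : ℕ := 0x9ca8d638832a92b3990100a0f8dab77c612a4c020a56a1948641d8e6d6f67359183d0732d491040520e9395ed5525641942011cc8b56f07c5ac74e54639a95a9f18190700835bd86524a932906e6b2f6aa0e68c1e20816a4d27208053952d5b90656b1c7321495c1f14ad40104c838ca4adecc736549be30a4e4b525cd6148341cd7b54410460f83e2a4ae72a040220cb6adce64358e320ef8c2b7b0041952632912b531cd5a928398a418820bdab49ca307b9ac3990100a0f8dab79ca8d638832a92b1948641d8e6d6f67c612a4c020a56a1040520e9395ed57359183d0732d49b56f07c5ac74e54525641942011cc800835bd86524a93639a95a9f1819078c1e20816a4d2722906e6b2f6aa0e66b1c7321495c1f108053952d5b9065adecc736549be304ad40104c838ca441cd7b54410460fa4e4b525cd6148320cb6adce64358e83e2a4ae72a0402952632912b531cd320ef8c2b7b0041bdab49ca307b9ac5a928398a418820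

/-- inversion table of `SL(2,3)` -/
def IS : ℕ := 0x3c53059ad41b5cc996a4bc94878440

def mulS (x y : ℕ) : ℕ := (TS >>> (5 * (24 * x + y))) % 32

def invS (x : ℕ) : ℕ := (IS >>> (5 * x)) % 32

/-- `SL(2,3)` -/
def sl : CGrp where
  nn := 24
  mulc := mulS
  invc := invS
  hnn := by norm_num
  hmul := by
    have h : (allB 24 fun a => allB 24 fun b => decide (mulS a b < 24)) = true := by
      decide +kernel
    intro a ha b hb
    have := allB_spec _ (allB_spec _ h a ha) b hb
    simpa using this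
  hinv := by
    have h : (allB 24 fun a => decide (invS a < 24)) = true := by
      decide +kernel
    intro a ha
    have := allB_spec _ h a ha
    simpa using this
  assoc := by
    have h : (allB 24 fun a => allB 24 fun b => allB 24 fun c =>
        mulS (mulS a b) c == mulS a (mulS b c)) = true := by
      decide +kernel
    intro a ha b hb c hc
    have := allB_spec _ (allB_spec _ (allB_spec _ h a ha) b hb) c hc
    simpa using this
  can1 := by
    have h : (allB 24 fun a => allB 24 fun b => mulS (mulS a (invS b)) b == a) = true := by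
      decide +kernel
    intro a ha b hb
    have := allB_spec _ (allB_spec _ h a ha) b hb
    simpa using this
  can2 := by
    have h : (allB 24 fun a => allB 24 fun b => mulS a (mulS (invS a) b) == b) = true := by
      decide +kernel
    intro a ha b hb
    have := allB_spec _ (allB_spec _ h a ha) b hb
    simpa using this
  can3 := by
    have h : (allB 24 fun a => allB 24 fun b => mulS (mulS a b) (invS b) == a) = true := by
      decide +kernel
    intro a ha b hb
    have := allB_spec _ (allB_spec _ h a ha) b hb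
    simpa using this

/-- `SL(2,3) × ℤ_3` -/
def SZ : CGrp := cprod sl (codedZ 3)

/-- base blocks over `SL(2,3) × ℤ_3 × 𝔽_37` -/
def e37 : List (List ℕ) :=
  scaled 37 (pows 37 16 9) [0, 4, 65, 19, 6, 26, 54, 69, 42]
    [0, 4, 34, 19, 31, 27, 2, 23, 5] ++
  scaled 37 (pows 37 16 9) [0, 52, 11, 55, 66, 14, 18, 21, 30]
    [0, 4, 1, 7, 25, 16, 14, 28, 33] ++
  scaled 37 (pows 37 16 9) [0, 0, 1, 59, 17, 60, 42, 45, 7]
    [0, 36, 25, 24, 12, 35, 26, 4, 23] ++
  scaled 37 (pows 37 16 9) [0, 0, 1, 35, 41, 48, 30, 27, 67]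
    [0, 2, 17, 32, 25, 23, 13, 3, 15]

theorem oke37 : e37.all (okB 9 (SZ.nn * (codedZ 37).nn)) = true := by decide +kernel

theorem dfe37 : addBits (diffs (cprod SZ (codedZ 37)) e37)
    (addBits ((List.range SZ.nn).map fun i => i * (codedZ 37).nn) 0) =
      2 ^ (SZ.nn * (codedZ 37).nn) - 1 := by decide +kernel

theorem s2665 : ∃ 𝓑 : Set (Finset (Fin 2665)), IsS2 (Fin 2665) 9 𝓑 :=
  main SZ (codedZ 37) 9 1 2665 (by decide +kernel) e37 pg8 [] oke37 pg8_ok
    (by decide +kernel) dfe37 (coverB_spec pg8_cover) (by decide +kernel)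

/-- base blocks over `SL(2,3) × ℤ_3 × 𝔽_53` -/
def e53 : List (List ℕ) :=
  scaled 53 (pows 53 16 13) [0, 4, 65, 19, 6, 26, 54, 69, 42]
    [0, 27, 6, 16, 12, 8, 18, 47, 17] ++
  scaled 53 (pows 53 16 13) [0, 52, 11, 55, 66, 14, 18, 21, 30]
    [0, 15, 43, 35, 38, 26, 7, 8, 39] ++
  scaled 53 (pows 53 16 13) [0, 0, 1, 59, 17, 60, 42, 45, 7]
    [0, 51, 33, 31, 48, 20, 24, 15, 6] ++
  scaled 53 (pows 53 16 13) [0, 0, 1, 35, 41, 48, 30, 27, 67]
    [0, 1, 11, 18, 13, 44, 9, 29, 52]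

theorem oke53 : e53.all (okB 9 (SZ.nn * (codedZ 53).nn)) = true := by decide +kernel

theorem dfe53 : addBits (diffs (cprod SZ (codedZ 53)) e53)
    (addBits ((List.range SZ.nn).map fun i => i * (codedZ 53).nn) 0) =
      2 ^ (SZ.nn * (codedZ 53).nn) - 1 := by decide +kernel

theorem s3817 : ∃ 𝓑 : Set (Finset (Fin 3817)), IsS2 (Fin 3817) 9 𝓑 :=
  main SZ (codedZ 53) 9 1 3817 (by decide +kernel) e53 pg8 [] oke53 pg8_ok
    (by decide +kernel) dfe53 (coverB_spec pg8_cover) (by decide +kernel)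

/-- base blocks over `SL(2,3) × ℤ_3 × 𝔽_61` -/
def e61 : List (List ℕ) :=
  scaled 61 (pows 61 16 15) [0, 4, 65, 19, 6, 26, 54, 69, 42]
    [0, 60, 25, 49, 36, 13, 24, 55, 51] ++
  scaled 61 (pows 61 16 15) [0, 52, 11, 55, 66, 14, 18, 21, 30]
    [0, 32, 21, 56, 11, 42, 19, 55, 46] ++
  scaled 61 (pows 61 16 15) [0, 0, 1, 59, 17, 60, 42, 45, 7]
    [0, 59, 18, 41, 9, 45, 1, 2, 4] ++
  scaled 61 (pows 61 16 15) [0, 0, 1, 35, 41, 48, 30, 27, 67]
    [0, 1, 39, 42, 17, 55, 10, 32, 2]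

theorem oke61 : e61.all (okB 9 (SZ.nn * (codedZ 61).nn)) = true := by decide +kernel

theorem dfe61 : addBits (diffs (cprod SZ (codedZ 61)) e61)
    (addBits ((List.range SZ.nn).map fun i => i * (codedZ 61).nn) 0) =
      2 ^ (SZ.nn * (codedZ 61).nn) - 1 := by decide +kernel

theorem s4393 : ∃ 𝓑 : Set (Finset (Fin 4393)), IsS2 (Fin 4393) 9 𝓑 :=
  main SZ (codedZ 61) 9 1 4393 (by decide +kernel) e61 pg8 [] oke61 pg8_ok
    (by decide +kernel) dfe61 (coverB_spec pg8_cover) (by decide +kernel)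

theorem s4401 : ∃ 𝓑 : Set (Finset (Fin 4401)), IsS2 (Fin 4401) 9 𝓑 :=
  main SZ (codedZ 61) 9 9 4401 (by decide +kernel) e61 ag9 ag9f oke61 ag9_ok ag9f_ok
    dfe61 (coverB_spec ag9_cover) (by decide +kernel)

end Pool.Agent.H423R3.St
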