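import Pool.Agent.H216R3.StGrp

/-!
The projective plane of order `8` as a cyclic difference set, the affine plane of order `9`, and
base blocks developed by a multiplier which acts on both coordinates.
-/

namespace Pool.Agent.H423R3.St

open Pool.Agent.H816R2.KM2 Pool.Agent.H216R3.StGrp

/-- lines of the projective plane of order `8` -/
def pg8 : List (List ℕ) :=
  (List.range 73).map fun j => [1, 2, 4, 8, 16, 32, 37, 55, 64].map fun d => (d + j) % 73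

theorem pg8_cover : coverB 72 1 pg8 [] = true := by decide +kernel

theorem pg8_ok : pg8.all (okB 9 73) = true := by decide +kernel

/-- lines of the affine plane of order `9`, except for one line -/
def ag9 : List (List ℕ) :=
  [
   [0, 1, 2, 3, 4, 5, 6, 7, 8],
   [9, 10, 11, 12, 13, 14, 15, 16, 17],
   [18, 19, 20, 21, 22, 23, 24, 25, 26],
   [27, 28, 29, 30, 31, 32, 33, 34, 35],
   [36, 37, 38, 39, 40, 41, 42, 43, 44],
   [45, 46, 47, 48, 49, 50, 51, 52, 53],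
   [54, 55, 56, 57, 58, 59, 60, 61, 62],
   [63, 64, 65, 66, 67, 68, 69, 70, 71],
   [0, 9, 18, 27, 36, 45, 54, 63, 72],
   [1, 10, 19, 28, 37, 46, 55, 64, 73],
   [2, 11, 20, 29, 38, 47, 56, 65, 74],
   [3, 12, 21, 30, 39, 48, 57, 66, 75],
   [4, 13, 22, 31, 40, 49, 58, 67, 76],
   [5, 14, 23, 32, 41, 50, 59, 68, 77],
   [6, 15, 24, 33, 42, 51, 60, 69, 78],
   [7, 16, 25, 34, 43, 52, 61, 70, 79],
   [8, 17, 26, 35, 44, 53, 62, 71, 80],
   [0, 10, 20, 30, 40, 50, 60, 70, 80],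
   [1, 11, 18, 31, 41, 48, 61, 71, 78],
   [2, 9, 19, 32, 39, 49, 62, 69, 79],
   [3, 13, 23, 33, 43, 53, 54, 64, 74],
   [4, 14, 21, 34, 44, 51, 55, 65, 72],
   [5, 12, 22, 35, 42, 52, 56, 63, 73],
   [6, 16, 26, 27, 37, 47, 57, 67, 77],
   [7, 17, 24, 28, 38, 45, 58, 68, 75],
   [8, 15, 25, 29, 36, 46, 59, 66, 76],
   [0, 11, 19, 33, 44, 52, 57, 68, 76],
   [1, 9, 20, 34, 42, 53, 58, 66, 77],
   [2, 10, 18, 35, 43, 51, 59, 67, 75],
   [3, 14, 22, 27, 38, 46, 60, 71, 79],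
   [4, 12, 23, 28, 36, 47, 61, 69, 80],
   [5, 13, 21, 29, 37, 45, 62, 70, 78],
   [6, 17, 25, 30, 41, 49, 54, 65, 73],
   [7, 15, 26, 31, 39, 50, 55, 63, 74],
   [8, 16, 24, 32, 40, 48, 56, 64, 72],
   [0, 12, 24, 29, 41, 53, 55, 67, 79],
   [1, 13, 25, 27, 39, 51, 56, 68, 80],
   [2, 14, 26, 28, 40, 52, 54, 66, 78],
   [3, 15, 18, 32, 44, 47, 58, 70, 73],
   [4, 16, 19, 30, 42, 45, 59, 71, 74],
   [5, 17, 20, 31, 43, 46, 57, 69, 72],
   [6, 9, 21, 35, 38, 50, 61, 64, 76],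
   [7, 10, 22, 33, 36, 48, 62, 65, 77],
   [8, 11, 23, 34, 37, 49, 60, 63, 75],
   [0, 13, 26, 32, 42, 46, 61, 65, 75],
   [1, 14, 24, 30, 43, 47, 62, 63, 76],
   [2, 12, 25, 31, 44, 45, 60, 64, 77],
   [3, 16, 20, 35, 36, 49, 55, 68, 78],
   [4, 17, 18, 33, 37, 50, 56, 66, 79],
   [5, 15, 19, 34, 38, 48, 54, 67, 80],
   [6, 10, 23, 29, 39, 52, 58, 71, 72],
   [7, 11, 21, 27, 40, 53, 59, 69, 73],
   [8, 9, 22, 28, 41, 51, 57, 70, 74],
   [0, 14, 25, 35, 37, 48, 58, 69, 74],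
   [1, 12, 26, 33, 38, 49, 59, 70, 72],
   [2, 13, 24, 34, 36, 50, 57, 71, 73],
   [3, 17, 19, 29, 40, 51, 61, 63, 77],
   [4, 15, 20, 27, 41, 52, 62, 64, 75],
   [5, 16, 18, 28, 39, 53, 60, 65, 76],
   [6, 11, 22, 32, 43, 45, 55, 66, 80],
   [7, 9, 23, 30, 44, 46, 56, 67, 78],
   [8, 10, 21, 31, 42, 47, 54, 68, 79],
   [0, 15, 21, 28, 43, 49, 56, 71, 77],
   [1, 16, 22, 29, 44, 50, 54, 69, 75],
   [2, 17, 23, 27, 42, 48, 55, 70, 76],
   [3, 9, 24, 31, 37, 52, 59, 65, 80],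
   [4, 10, 25, 32, 38, 53, 57, 63, 78],
   [5, 11, 26, 30, 36, 51, 58, 64, 79],
   [6, 12, 18, 34, 40, 46, 62, 68, 74],
   [7, 13, 19, 35, 41, 47, 60, 66, 72],
   [8, 14, 20, 33, 39, 45, 61, 67, 73],
   [0, 16, 23, 31, 38, 51, 62, 66, 73],
   [1, 17, 21, 32, 36, 52, 60, 67, 74],
   [2, 15, 22, 30, 37, 53, 61, 68, 72],
   [3, 10, 26, 34, 41, 45, 56, 69, 76],
   [4, 11, 24, 35, 39, 46, 54, 70, 77],
   [5, 9, 25, 33, 40, 47, 55, 71, 75],
   [6, 13, 20, 28, 44, 48, 59, 63, 79],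
   [7, 14, 18, 29, 42, 49, 57, 64, 80],
   [8, 12, 19, 27, 43, 50, 58, 65, 78],
   [0, 17, 22, 34, 39, 47, 59, 64, 78],
   [1, 15, 23, 35, 40, 45, 57, 65, 79],
   [2, 16, 21, 33, 41, 46, 58, 63, 80],
   [3, 11, 25, 28, 42, 50, 62, 67, 72],
   [4, 9, 26, 29, 43, 48, 60, 68, 73],
   [5, 10, 24, 27, 44, 49, 61, 66, 74],
   [6, 14, 19, 31, 36, 53, 56, 70, 75],
   [7, 12, 20, 32, 37, 51, 54, 71, 76],
   [8, 13, 18, 30, 38, 52, 55, 69, 77]]

/-- the remaining line -/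
def ag9f : List (List ℕ) := [[72, 73, 74, 75, 76, 77, 78, 79, 80]]

theorem ag9_cover : coverB 72 9 ag9 ag9f = true := by decide +kernel

theorem ag9_ok : ag9.all (okB 9 81) = true := by decide +kernel

theorem ag9f_ok : ag9f.all (okB 9 81) = true := by decide +kernel

/-- the images of a block with coordinates `xs` (modulo `n`) and `ys` (modulo `q`) under the
multipliers in `hs` -/
def scaled2 (n q : ℕ) (hs : List (ℕ × ℕ)) (xs ys : List ℕ) : List (List ℕ) :=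
  hs.map fun h => List.zipWith (fun x y => (h.1 * x % n) * q + h.2 * y % q) xs ys

/-- the powers `(a, g) ^ 0, …, (a, g) ^ (m-1)` modulo `(n, q)` -/
def pows2 (n q a g m : ℕ) : List (ℕ × ℕ) := (List.range m).map fun i => (a ^ i % n, g ^ i % q)

end Pool.Agent.H423R3.St
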